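import Mathlib

namespace Pool.Agent.H.MP_82795f_nt

theorem luc (a : ℕ) : ∀ N I : ℕ, N.choose I % 2 = 1 →
    (N / 2 ^ a).choose (I / 2 ^ a) % 2 = 1 ∧ I % 2 ^ a ≤ N % 2 ^ a := by
  have : Fact (Nat.Prime 2) := ⟨Nat.prime_two⟩
  induction a with
  | zero => intro N I h; simpa [Nat.mod_one] using h
  | succ a ih =>
    intro N I h
    have L := Choose.choose_modEq_choose_mod_mul_choose_div_nat (n := N) (k := I) (p := 2)
    unfold Nat.ModEq at L
    rw [h] at L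
    have h1 : (N / 2).choose (I / 2) % 2 = 1 := by
      rcases Nat.mod_two_eq_zero_or_one ((N / 2).choose (I / 2)) with h0 | h0
      · rw [Nat.mul_mod, h0] at L; simp at L
      · exact h0
    have h2 : I % 2 ≤ N % 2 := by
      by_contra hc
      rw [Nat.choose_eq_zero_of_lt (by omega)] at L
      simp at L
    obtain ⟨h3, h4⟩ := ih _ _ h1
    rw [Nat.div_div_eq_div_mul, Nat.div_div_eq_div_mul, ← pow_succ'] at h3
    refine ⟨h3, ?_⟩
    rw [pow_succ', Nat.mod_mul, Nat.mod_mul]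
    omega

theorem nogo (a : ℕ) (ha : 4 ≤ a) : ∀ T N I e : ℕ, e ≤ 1 → N = 2 ^ T + I / 2 ^ a + e →
    N.choose I % 2 = 1 → 2 ^ a + e ≤ I % 2 ^ a + 3 → False := by
  have h16 : 16 ≤ 2 ^ a := (by norm_num : 16 = 2 ^ 4) ▸ Nat.pow_le_pow_right (by norm_num) ha
  intro T
  induction T using Nat.strong_induction_on with
  | _ T ih =>
    intro N I e he hN hc hI
    have hIN : I ≤ N := by
      by_contra h
      rw [Nat.choose_eq_zero_of_lt (by omega)] at hc
      simp at hc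
    obtain ⟨h1, h2⟩ := luc a N I hc
    by_cases hT : a ≤ T
    · obtain ⟨T', rfl⟩ : ∃ T', T = a + T' := ⟨T - a, by omega⟩
      have hlt := Nat.mod_lt (I / 2 ^ a) (show 0 < 2 ^ a by omega)
      have hd := Nat.div_add_mod (I / 2 ^ a) (2 ^ a)
      have hN' : N = (I / 2 ^ a % 2 ^ a + e) + 2 ^ a * (2 ^ T' + I / 2 ^ a / 2 ^ a) := by
        rw [hN, pow_add, mul_add]; omega
      have hne : I / 2 ^ a % 2 ^ a + e < 2 ^ a := by
        by_contra hge
        have : I / 2 ^ a % 2 ^ a + e = 2 ^ a := by omega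
        rw [hN', this, Nat.add_mul_mod_self_left, Nat.mod_self] at h2
        omega
      have m1 : N % 2 ^ a = I / 2 ^ a % 2 ^ a + e := by
        rw [hN', Nat.add_mul_mod_self_left, Nat.mod_eq_of_lt hne]
      have m2 : N / 2 ^ a = 2 ^ T' + I / 2 ^ a / 2 ^ a := by
        rw [hN', Nat.add_mul_div_left _ _ (by omega), Nat.div_eq_of_lt hne, zero_add]
      exact ih T' (by omega) (N / 2 ^ a) (I / 2 ^ a) 0 (by omega) (by omega) h1 (by omega)
    · have h8 : 2 * 2 ^ T ≤ 2 ^ a := by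
        rw [← pow_succ']; exact Nat.pow_le_pow_right (by norm_num) (by omega)
      have hd := Nat.div_add_mod I (2 ^ a)
      have : 16 * (I / 2 ^ a) ≤ 2 ^ a * (I / 2 ^ a) := Nat.mul_le_mul_right _ h16
      omega

theorem main (a : ℕ) (ha : 4 ≤ a) (t : ℕ) (hq : (2 ^ t + 1).Prime) (n j : ℕ) (hn : 0 < n)
    (hj : j ≤ n) (h : (2 ^ a - 1) * n + j = 2 * (2 ^ t + 1)) : n ∣ n.choose j := by
  have h16 : 16 ≤ 2 ^ a := (by norm_num : 16 = 2 ^ 4) ▸ Nat.pow_le_pow_right (by norm_num) ha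
  obtain ⟨i, rfl⟩ : ∃ i, n = j + i := ⟨n - j, by omega⟩
  have h' : 2 ^ a * (j + i) = 2 * 2 ^ t + 2 + i := by
    obtain ⟨c, hc⟩ : ∃ c, 2 ^ a = c + 1 := ⟨2 ^ a - 1, by omega⟩
    rw [hc] at h ⊢
    simp only [Nat.add_sub_cancel] at h
    nlinarith
  have h15 : 15 * (j + i) ≤ (2 ^ a - 1) * (j + i) := Nat.mul_le_mul_right _ (by omega)
  have hta : a ≤ t + 1 := by
    by_contra hc
    have h8 : 4 * 2 ^ t ≤ 2 ^ a := by
      rw [show 4 * 2 ^ t = 2 ^ (t + 2) by ring]; exact Nat.pow_le_pow_right (by norm_num) (by omega)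
    have : (2 ^ a - 1) * 1 ≤ (2 ^ a - 1) * (j + i) := Nat.mul_le_mul_left _ hn
    omega
  obtain ⟨T, hT⟩ : ∃ T, t + 1 = a + T := ⟨t + 1 - a, by omega⟩
  have e2 : 2 * 2 ^ t = 2 ^ a * 2 ^ T := by rw [← pow_succ', hT, pow_add]
  have hd := Nat.div_add_mod i (2 ^ a)
  have hlt := Nat.mod_lt i (show 0 < 2 ^ a by omega)
  have hdv : 2 ^ a ∣ i % 2 ^ a + 2 := by
    have : 2 ^ a * (j + i) = 2 ^ a * (2 ^ T + i / 2 ^ a) + (i % 2 ^ a + 2) := by
      rw [mul_add (2 ^ a) (2 ^ T)]; omega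
    exact (Nat.dvd_add_right (dvd_mul_right _ _)).1 (this ▸ dvd_mul_right _ _)
  have hm : i % 2 ^ a + 2 = 2 ^ a := by
    obtain ⟨w, hw⟩ := hdv
    rcases w with _ | _ | w
    · omega
    · omega
    · have : 2 ^ a * 2 ≤ 2 ^ a * (w + 1 + 1) := Nat.mul_le_mul_left _ (by omega)
      omega
  have hN : j + i = 2 ^ T + i / 2 ^ a + 1 := by
    apply Nat.eq_of_mul_eq_mul_left (show 0 < 2 ^ a by omega)
    rw [mul_add (2 ^ a) (2 ^ T + i / 2 ^ a), mul_add (2 ^ a) (2 ^ T)]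
    omega
  have ev1 : 2 ∣ (j + i).choose j := by
    rw [Nat.choose_symm_add]
    by_contra hc
    exact nogo a ha T (j + i) i 1 le_rfl hN (by omega) (by omega)
  have hj0 : j ≠ 0 := by rintro rfl; simp at ev1
  obtain ⟨j, rfl⟩ : ∃ j', j = j' + 1 := ⟨j - 1, by omega⟩
  have ev2 : 2 ∣ (j + i).choose j := by
    rw [Nat.choose_symm_add]
    by_contra hc
    exact nogo a ha T (j + i) i 0 (by omega) (by omega) (by omega) (by omega)
  have key := Nat.add_one_mul_choose_eq (j + i) j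
  rw [show j + i + 1 = j + 1 + i by ring] at key
  obtain ⟨w, hw⟩ := ev2
  obtain ⟨w', hw'⟩ := ev1
  have g : Nat.gcd (j + 1 + i) (j + 1) ∣ 2 := by
    have d1 : Nat.gcd (j + 1 + i) (j + 1) ∣ 2 * (2 ^ t + 1) := by
      rw [← h]
      exact dvd_add ((Nat.gcd_dvd_left _ _).mul_left _) (Nat.gcd_dvd_right _ _)
    have cop : Nat.Coprime (Nat.gcd (j + 1 + i) (j + 1)) (2 ^ t + 1) := by
      refine ((Nat.Prime.coprime_iff_not_dvd hq).2 fun hh => ?_).symm
      have := Nat.le_of_dvd hn (hh.trans (Nat.gcd_dvd_left _ _))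
      omega
    exact cop.dvd_of_dvd_mul_right d1
  generalize j + 1 + i = n at *
  generalize j + 1 = k at *
  rcases (Nat.dvd_prime Nat.prime_two).1 g with g1 | g2
  · exact Nat.Coprime.dvd_of_dvd_mul_right g1 ⟨_, key.symm⟩
  · obtain ⟨n', k', cop, hn', hk'⟩ := Nat.exists_coprime n k
    rw [g2] at hn' hk'
    subst hn' hk'
    rcases Nat.even_or_odd n' with hpar | hpar
    · have cop2 : Nat.Coprime (n' * 2) k' := by
        refine Nat.Coprime.mul_left cop ?_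
        refine (Nat.Prime.coprime_iff_not_dvd Nat.prime_two).2 fun hh => ?_
        have := Nat.dvd_gcd hpar.two_dvd hh
        rw [cop] at this
        omega
      refine cop2.dvd_of_dvd_mul_right ⟨w, ?_⟩
      rw [hw] at key
      nlinarith
    · rw [hw'] at key ⊢
      have : n' ∣ 2 * w' := cop.dvd_of_dvd_mul_right ⟨(j + i).choose j, by nlinarith⟩
      have c2 : Nat.Coprime n' 2 := (Nat.coprime_two_right).2 hpar
      obtain ⟨x, hx⟩ := c2.dvd_of_dvd_mul_left this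
      exact ⟨x, by rw [hx]; ring⟩

end Pool.Agent.H.MP_82795f_nt
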